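import Pool.Agent.Helper20.PL.TRG2
import Pool.Agent.Helper29.PLG.GE2
import Pool.Agent.Helper29.PLG.YLV
import Pool.Agent.Helper45.PLG.Diag
import Pool.Agent.Helper45.PLG.GEN
import Pool.Agent.Helper59.PLG.Four
import Pool.Agent.Helper70.PLG.EXG
import Pool.Agent.Helper77.PLG.RareG
import Pool.Agent.Helper90.PLG.RSG
import Pool.Agent.Helper97.PL.AllA

/-!
# Project PL, version 7: cyclic covers of any curve (assembly)
-/

set_option autoImplicit false

namespace Pool.Agent.PRG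

open VC IntermediateField NumberField IsDedekindDomain Pool.Agent.SC Pool.Agent.Helper91.Sect
open Filter Topology
open Pool.Agent.ML (HasMu GBr)

theorem ge2A : StmtGE2 := gE2 PD.stmtLVL PRL.fclA yLV

/-- **THE THEOREM**, cyclic covers of any curve. -/
theorem rareGA : StmtRareG :=
  rareG_of (gEN yLV ge2A PRL.plfA) ge2A (fOUR ML.z yLV) rSGA (nOG PRL.nONE) tRG

/-- The levels of the tower grow with the twist. -/
theorem rareGD (k K0 : Type) [Field k] [NumberField k] [Field K0] [Algebra k K0] (ℓ : ℕ) (h : K0)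
    (hℓ : ℓ.Prime) (hμ : HasMu k ℓ) (hG : LN.GoodCurve k ℓ h) (hN : NdG k ℓ h) (h2 : ℓ ≠ 2) :
    ∃ M : ℕ → ℕ, Monotone M ∧ Tendsto M atTop atTop ∧
      PD.Rare ℓ (fun c : k => ∃ m ≤ M (LN.cond ℓ c),
        OthG (k := k) ℓ h (fun K _ _ _ y => TG k K0 (K := K) y ℓ m) c) :=
  rare_diag45 ((rareGA k K0 ℓ h hℓ hμ hG hN).1 h2)

/-- The section of a rational branch point. -/
theorem exG {k K0 : Type} [Field k] [CharZero k] [Field K0] [Algebra k K0] {ℓ : ℕ} {h : K0}
    (hℓ : ℓ.Prime) (b : GBr k (AlgebraicClosure k) ℓ h) (hb : RatG b) {c : k} (hc : c ≠ 0) :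
    ∃ (K : Type) (_ : Field K) (_ : Algebra k K) (_ : Algebra K0 K) (_ : IsScalarTower k K0 K)
      (y : K), y ^ ℓ = algebraMap k K c * algebraMap K0 K h ∧
      IntermediateField.adjoin K0 {y} = ⊤ ∧
      ∃ (s : GaloisSection k K) (W : ValuationSubring (AlgebraicClosure K)),
        (∀ z, IsAlgebraic k z → z ∈ W) ∧
        (∀ z : K0, algebraMap K (AlgebraicClosure K) (algebraMap K0 K z) ∈ W ↔ z ∈ b.P) ∧
        ∀ (z : Kur k K) (g : Gk k K), (z : AlgebraicClosure K) ∈ W ↔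
          (s.toHom g z : AlgebraicClosure K) ∈ W := by
  refine LN.conv_fix ℓ hℓ.two_le h b.P b.const (fun l hl hl' z => ?_) (fun x hx => ?_) c hc
  · rw [(Nat.prime_dvd_prime_iff_eq hl hℓ).1 hl']
    exact b.ram z
  · -- the residue field is `k`
    have hfix : ∀ g : AlgebraicClosure k ≃ₐ[k] AlgebraicClosure k, g (b.φ ⟨x, hx⟩) = b.φ ⟨x, hx⟩ := by
      intro g
      have h1 : (b.map g).φ = b.φ := by
        have h2 := hb g
        have h3 : ∀ b' : GBr k (AlgebraicClosure k) ℓ h, b' = b → ∀ (hx' : x ∈ b'.P),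
            b'.φ ⟨x, hx'⟩ = b.φ ⟨x, hx⟩ := by
          rintro _ rfl _
          rfl
        refine RingHom.ext fun z => ?_
        have h4 : ∀ b' : GBr k (AlgebraicClosure k) ℓ h, b' = b → ∀ (hx' : (z : K0) ∈ b'.P),
            b'.φ ⟨z, hx'⟩ = b.φ z := by
          rintro _ rfl _
          rfl
        exact h4 _ h2 z.2
      have h5 := RingHom.congr_fun h1 ⟨x, hx⟩
      exact h5
    have hmem : b.φ ⟨x, hx⟩ ∈ (⊥ : IntermediateField k (AlgebraicClosure k)) :=
      (InfiniteGalois.mem_bot_iff_fixed _).2 hfix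
    obtain ⟨a, ha⟩ := IntermediateField.mem_bot.1 hmem
    refine ⟨a, ?_⟩
    have hxa : x - algebraMap k K0 a ∈ b.P := sub_mem hx (b.const a)
    have h0 : b.φ ⟨x - algebraMap k K0 a, hxa⟩ = 0 := by
      have h6 : (⟨x - algebraMap k K0 a, hxa⟩ : b.P) = ⟨x, hx⟩ - ⟨algebraMap k K0 a, b.const a⟩ := rfl
      rw [h6, map_sub, b.emb a ⟨algebraMap k K0 a, b.const a⟩ rfl, ha, sub_self]
    by_contra hcon
    have h7 : b.P.valuation (x - algebraMap k K0 a) = 1 :=
      le_antisymm ((b.P.valuation_le_one_iff _).2 hxa) (not_lt.1 hcon)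
    have h8 : IsUnit (⟨x - algebraMap k K0 a, hxa⟩ : b.P) :=
      (b.P.valuation_eq_one_iff _).2 h7
    exact (h8.map b.φ).ne_zero h0

end Pool.Agent.PRG
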